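import Pool.Agent.Y262.EG.Stm

/-!
# Project EG, job 8336 (helper779 for helper262): the commutators of the frame
-/

set_option autoImplicit false

open Set Filter Topology MeasureTheory
open scoped ContDiff
open Pool.Agent.Y262.EG

noncomputable section

namespace Pool.Agent.Y779.EG

/-- a complex number from its real and imaginary parts, as a continuous linear map -/
def mk : ℝ × ℝ →L[ℝ] ℂ := Complex.equivRealProdCLM.symm.toContinuousLinearMap

theorem mk_apply (a b : ℝ) : mk (a, b) = ⟨a, b⟩ := by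
  apply Complex.ext <;> simp [mk]

theorem pack {a b c : Y → ℝ} {a' b' c' : Y →L[ℝ] ℝ} {p : Y} (ha : HasFDerivAt a a' p)
    (hb : HasFDerivAt b b' p) (hc : HasFDerivAt c c' p) :
    HasFDerivAt (fun q : Y => ((⟨a q, b q⟩ : ℂ), c q)) ((mk.comp (a'.prod b')).prod c') p := by
  have h1 : (fun q : Y => ((⟨a q, b q⟩ : ℂ), c q)) = fun q : Y => (mk (a q, b q), c q) := by
    funext q
    rw [mk_apply]
  rw [h1]
  exact (mk.hasFDerivAt.comp p (ha.prodMk hb)).prodMk hc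

theorem pack_apply (a' b' c' : Y →L[ℝ] ℝ) (W : Y) :
    ((mk.comp (a'.prod b')).prod c') W = ((⟨a' W, b' W⟩ : ℂ), c' W) := by
  rw [← mk_apply]
  rfl

theorem smooth_pack {a b c : Y → ℝ} {s : Set Y} (ha : ContDiffOn ℝ ∞ a s) (hb : ContDiffOn ℝ ∞ b s)
    (hc : ContDiffOn ℝ ∞ c s) : ContDiffOn ℝ ∞ (fun q : Y => ((⟨a q, b q⟩ : ℂ), c q)) s := by
  have h1 : (fun q : Y => ((⟨a q, b q⟩ : ℂ), c q)) = fun q : Y => (mk (a q, b q), c q) := by
    funext q
    rw [mk_apply]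
  rw [h1]
  exact (mk.contDiff.comp_contDiffOn (ha.prodMk hb)).prodMk hc

section
variable {Ω : Set ℂ} {φ : ℂ → ℝ}

theorem smooth_d (hΩ : IsOpen Ω) (hφ : ContDiffOn ℝ ∞ φ Ω) (v : ℂ) :
    ContDiffOn ℝ ∞ (fun z => fderiv ℝ φ z v) Ω :=
  (hφ.fderiv_of_isOpen hΩ (m := ∞) (by simp)).clm_apply contDiffOn_const

theorem smooth_px (hΩ : IsOpen Ω) (hφ : ContDiffOn ℝ ∞ φ Ω) : ContDiffOn ℝ ∞ (px φ) Ω :=
  smooth_d hΩ hφ 1

theorem smooth_py (hΩ : IsOpen Ω) (hφ : ContDiffOn ℝ ∞ φ Ω) : ContDiffOn ℝ ∞ (py φ) Ω :=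
  smooth_d hΩ hφ Complex.I

theorem fd_eq (φ : ℂ → ℝ) (z w : ℂ) : fderiv ℝ φ z w = w.re * px φ z + w.im * py φ z := by
  have h1 : w = w.re • (1 : ℂ) + w.im • Complex.I := by
    apply Complex.ext <;> simp
  unfold px py
  conv_lhs => rw [h1]
  rw [map_add, map_smul, map_smul, smul_eq_mul, smul_eq_mul]

theorem diff_at (hΩ : IsOpen Ω) {ψ : ℂ → ℝ} (hψ : ContDiffOn ℝ ∞ ψ Ω) {z : ℂ} (hz : z ∈ Ω) :
    DifferentiableAt ℝ ψ z :=
  ((hψ.contDiffAt (hΩ.mem_nhds hz)).differentiableAt (by simp))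

theorem symm2 (hΩ : IsOpen Ω) (hφ : ContDiffOn ℝ ∞ φ Ω) {z : ℂ} (hz : z ∈ Ω) :
    py (px φ) z = px (py φ) z := by
  have h0 : ContDiffAt ℝ ∞ φ z := hφ.contDiffAt (hΩ.mem_nhds hz)
  have h1 : IsSymmSndFDerivAt ℝ φ z := h0.isSymmSndFDerivAt (by
    rw [minSmoothness_of_isRCLikeNormedField]
    exact WithTop.coe_le_coe.2 (le_top : (2 : ℕ∞) ≤ ⊤))
  have h2 : DifferentiableAt ℝ (fderiv ℝ φ) z :=
    ((hφ.fderiv_of_isOpen hΩ (m := ∞) (by simp)).contDiffAt (hΩ.mem_nhds hz)).differentiableAt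
      (by simp)
  have h3 : ∀ v w : ℂ, fderiv ℝ (fun z => fderiv ℝ φ z v) z w = fderiv ℝ (fderiv ℝ φ) z w v := by
    intro v w
    have h4 : HasFDerivAt (fun z => fderiv ℝ φ z v)
        ((fderiv ℝ (fderiv ℝ φ) z).flip v) z := by
      have := h2.hasFDerivAt.clm_apply (hasFDerivAt_const v z)
      simpa using this
    rw [h4.fderiv]
    rfl
  show fderiv ℝ (fun z => fderiv ℝ φ z 1) z Complex.I = fderiv ℝ (fun z => fderiv ℝ φ z Complex.I) z 1
  rw [h3, h3]
  exact h1.eq _ _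

end

theorem frame : StFrame := by
  intro Ω φ hΩ hφ
  have hpx := smooth_px hΩ hφ
  have hpy := smooth_py hΩ hφ
  have hm : MapsTo (fun p : Y => p.1) (YO Ω) Ω := fun p hp => hp
  have f1 : ∀ ψ : ℂ → ℝ, ContDiffOn ℝ ∞ ψ Ω → ContDiffOn ℝ ∞ (fun p : Y => ψ p.1) (YO Ω) :=
    fun ψ hψ => hψ.comp contDiff_fst.contDiffOn hm
  have fE : ContDiffOn ℝ ∞ (fun p : Y => Real.exp (-φ p.1)) (YO Ω) := (f1 φ hφ).neg.exp
  have fc : ContDiffOn ℝ ∞ (fun p : Y => Real.cos p.2) (YO Ω) := contDiff_snd.cos.contDiffOn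
  have fs : ContDiffOn ℝ ∞ (fun p : Y => Real.sin p.2) (YO Ω) := contDiff_snd.sin.contDiffOn
  have fx := f1 _ hpx
  have fy := f1 _ hpy
  refine ⟨?_, ?_, ?_, ?_⟩
  · exact smooth_pack (fE.mul fc) (fE.mul fs) (fE.mul ((fx.neg.mul fs).add (fy.mul fc)))
  · exact smooth_pack (fE.mul fs).neg (fE.mul fc) (fE.mul ((fx.mul fc).add (fy.mul fs))).neg
  · have h1 : ContDiffOn ℝ ∞ (fun z => Real.exp (-2 * φ z)) Ω := (contDiffOn_const.mul hφ).exp
    exact (h1.mul ((smooth_px hΩ hpx).add (smooth_py hΩ hpy))).neg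
  · intro p hp
    have hz : p.1 ∈ Ω := hp
    set z := p.1 with hzdef
    have g1 : ∀ ψ : ℂ → ℝ, ContDiffOn ℝ ∞ ψ Ω →
        HasFDerivAt (fun p : Y => ψ p.1) ((fderiv ℝ ψ z).comp (ContinuousLinearMap.fst ℝ ℂ ℝ)) p :=
      fun ψ hψ => (diff_at hΩ hψ hz).hasFDerivAt.comp p hasFDerivAt_fst
    have gφ := g1 φ hφ
    have gE := gφ.neg.exp
    have gx := g1 _ hpx
    have gy := g1 _ hpy
    have g2 : HasFDerivAt (fun p : Y => p.2) (ContinuousLinearMap.snd ℝ ℂ ℝ) p := hasFDerivAt_snd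
    have gc := g2.cos
    have gs := g2.sin
    have hX := pack (gE.mul gc) (gE.mul gs) (gE.mul ((gx.neg.mul gs).add (gy.mul gc)))
    have hH := pack (gE.mul gs).neg (gE.mul gc) (gE.mul ((gx.mul gc).add (gy.mul gs))).neg
    have eX : ∀ W : Y, fderiv ℝ (XX φ) p W =
        (⟨Real.exp (-φ z) * (-Real.sin p.2 * W.2) + Real.cos p.2 * (Real.exp (-φ z) * -(fderiv ℝ φ z W.1)),
          Real.exp (-φ z) * (Real.cos p.2 * W.2) + Real.sin p.2 * (Real.exp (-φ z) * -(fderiv ℝ φ z W.1))⟩,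
          Real.exp (-φ z) * ((-px φ z * (Real.cos p.2 * W.2) + Real.sin p.2 * -(fderiv ℝ (px φ) z W.1)) +
            (py φ z * (-Real.sin p.2 * W.2) + Real.cos p.2 * fderiv ℝ (py φ) z W.1)) +
          (-px φ z * Real.sin p.2 + py φ z * Real.cos p.2) *
            (Real.exp (-φ z) * -(fderiv ℝ φ z W.1))) := fun W =>
      (congrArg (fun L : Y →L[ℝ] Y => L W) hX.fderiv).trans (pack_apply _ _ _ W)
    have eH : ∀ W : Y, fderiv ℝ (HH φ) p W =
        (⟨-(Real.exp (-φ z) * (Real.cos p.2 * W.2) + Real.sin p.2 * (Real.exp (-φ z) * -(fderiv ℝ φ z W.1))),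
          Real.exp (-φ z) * (-Real.sin p.2 * W.2) + Real.cos p.2 * (Real.exp (-φ z) * -(fderiv ℝ φ z W.1))⟩,
          -(Real.exp (-φ z) * ((px φ z * (-Real.sin p.2 * W.2) + Real.cos p.2 * (fderiv ℝ (px φ) z W.1)) +
            (py φ z * (Real.cos p.2 * W.2) + Real.sin p.2 * fderiv ℝ (py φ) z W.1)) +
          (px φ z * Real.cos p.2 + py φ z * Real.sin p.2) *
            (Real.exp (-φ z) * -(fderiv ℝ φ z W.1)))) := fun W =>
      (congrArg (fun L : Y →L[ℝ] Y => L W) hH.fderiv).trans (pack_apply _ _ _ W)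
    have hsy := symm2 hΩ hφ hz
    have hcs := Real.sin_sq_add_cos_sq p.2
    have hE2 : Real.exp (-2 * φ z) = Real.exp (-φ z) * Real.exp (-φ z) := by
      rw [← Real.exp_add]
      congr 1
      ring
    refine ⟨?_, ?_, ?_⟩
    · rw [eX]
      unfold VV HH
      refine Prod.ext (Complex.ext ?_ ?_) ?_
      · simp [← hzdef]
      · simp [← hzdef]
      · simp [← hzdef]
        ring
    · rw [eH]
      unfold VV XX
      refine Prod.ext (Complex.ext ?_ ?_) ?_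
      · simp [← hzdef]
      · simp [← hzdef]
      · simp [← hzdef]
    · rw [eX, eH]
      unfold VV XX HH curv
      rw [← hzdef, hE2]
      refine Prod.ext (Complex.ext ?_ ?_) ?_
      · simp only [fd_eq, Prod.fst_sub, Complex.sub_re, Prod.smul_fst, smul_zero, Complex.zero_re]
        ring
      · simp only [fd_eq, Prod.fst_sub, Complex.sub_im, Prod.smul_fst, smul_zero, Complex.zero_im]
        ring
      · simp only [fd_eq, Prod.snd_sub, Prod.smul_snd, smul_eq_mul, mul_one]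
        rw [hsy]
        generalize Real.exp (-φ z) = E at *
        generalize Real.cos p.2 = c at *
        generalize Real.sin p.2 = s at *
        generalize px φ z = a at *
        generalize py φ z = b at *
        generalize px (px φ) z = d at *
        generalize px (py φ) z = k at *
        generalize py (py φ) z = l at *
        linear_combination (-(E * E * (d + l))) * hcs

end Pool.Agent.Y779.EG
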